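import Mathlib
import Pool.Agent.W203.SP.Stm

/-! Subordination formula: decomposition. -/

set_option autoImplicit false

namespace Pool.Agent.W148.SP

open MeasureTheory Set Complex Filter
open scoped ENNReal NNReal FourierTransform ContDiff
open Pool.Agent.W203.SP

lemma norm_ee (x : ℝ) : ‖ee x‖ = 1 := by
  unfold ee; exact Complex.norm_exp_ofReal_mul_I _

lemma ee_add (x y : ℝ) : ee (x + y) = ee x * ee y := by
  unfold ee; rw [← Complex.exp_add]; congr 1; push_cast; ring

lemma continuous_ee : Continuous ee := by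
  unfold ee; fun_prop

lemma measurable_ee : Measurable ee := continuous_ee.measurable

lemma cont_four (f : ℝ → ℂ) (hf : Integrable f) : Continuous (fun p : ℝ => ∫ r, f r * ee (r * p)) := by
  refine continuous_of_dominated (bound := fun r => ‖f r‖) ?_ ?_ hf.norm ?_
  · intro p
    exact hf.aestronglyMeasurable.mul
      ((continuous_ee.comp (by fun_prop : Continuous fun r : ℝ => r * p)).aestronglyMeasurable)
  · intro p
    exact Eventually.of_forall fun r => by rw [norm_mul, norm_ee, mul_one]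
  · exact Eventually.of_forall fun r =>
      continuous_const.mul (continuous_ee.comp (by fun_prop : Continuous fun p : ℝ => r * p))

lemma norm_four (f : ℝ → ℂ) (g : ℝ → ℝ) (hg : Integrable g) (h : ∀ r, ‖f r‖ ≤ g r) (p : ℝ) :
    ‖∫ r, f r * ee (r * p)‖ ≤ ∫ r, g r := by
  refine norm_integral_le_of_norm_le hg (Eventually.of_forall fun r => ?_)
  rw [norm_mul, norm_ee, mul_one]; exact h r

lemma int_inv (K : ℝ) : Integrable (fun r : ℝ => K * (1 + r ^ 2)⁻¹) ∧
    ∫ r : ℝ, K * (1 + r ^ 2)⁻¹ = K * Real.pi := by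
  refine ⟨integrable_inv_one_add_sq.const_mul K, ?_⟩
  rw [integral_const_mul, integral_univ_inv_one_add_sq]

lemma meas_RT (T e : ℝ) : MeasurableSet (RT T e) := by
  unfold RT
  exact (measurableSet_le measurable_const measurable_norm).inter
    (measurableSet_le measurable_norm measurable_const)

/-- decay of powers -/
lemma pow_bd (T e : ℝ) (N n : ℕ) (hT : 1 ≤ T) (hn : (N + 2 : ℝ) ≤ e * n) :
    (T ^ (-e)) ^ n * T ^ 2 ≤ T ^ (-(N : ℝ)) := by
  have h0 : 0 < T := by linarith
  rw [← Real.rpow_natCast (T ^ (-e)) n, ← Real.rpow_mul h0.le, ← Real.rpow_natCast T 2,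
    ← Real.rpow_add h0]
  exact Real.rpow_le_rpow_of_exponent_le hT (by push_cast; nlinarith)

theorem t_SUB (h1 : S_K1) (h2 : S_K2) (h3 : S_K3) (h5 : S_K5) (h6 : S_K6) (h7 : S_K7)
    (hc : S_CR) : S_SUB := by
  intro η hη
  obtain ⟨⟨hg, hgc⟩, hkap⟩ := h5 η hη
  obtain ⟨hGc, hGi, hGd⟩ := h7 (gq η) hg hgc
  have hgi : Integrable (gq η) := hg.continuous.integrable_of_hasCompactSupport hgc
  set G : ℝ → ℂ := 𝓕 (gq η) with hGdef
  refine ⟨G, hGc, hGi, fun e he he1 N => ?_⟩
  obtain ⟨n, hn⟩ := exists_nat_ge ((N + 2 : ℝ) / e)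
  have hn' : (N + 2 : ℝ) ≤ e * n := by
    rw [div_le_iff₀ he] at hn; linarith
  obtain ⟨C2, hC2, hk2⟩ := h2 η hη (n + 2)
  obtain ⟨C3, hC3, hk3⟩ := h3 (gq η) hg hgc n
  obtain ⟨C7, hC7, hd7⟩ := hGd (N + 4 + 2)
  set K1 : ℝ := C3 * 4 ^ n * 2 + C2 * 3 ^ n * 18 with hK1
  set K2 : ℝ := C7 * 4 ^ (N + 4) * Real.pi * 2 with hK2
  have hK1' : 0 ≤ K1 := by positivity
  have hK2' : 0 ≤ K2 := by positivity
  refine ⟨(K1 + K2) * Real.pi, by positivity, fun T hT t ht ht' => ?_⟩
  have hT0 : 0 < T := by linarith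
  have ht0 : 0 < t := by linarith
  obtain ⟨hkc, hki, hkinv⟩ := h1 η hη t
  set A : Set ℝ := RT T e with hA
  set B : Set ℝ := Icc (-(T / 4)) (T / 4) with hB
  have hAm : MeasurableSet A := meas_RT T e
  have hBm : MeasurableSet B := measurableSet_Icc
  -- positivity on A
  have hA1 : ∀ r ∈ A, 1 ≤ |r| := fun r hr =>
    le_trans (Real.one_le_rpow hT (by linarith)) hr.1
  have hA0 : ∀ r ∈ A, r ≠ 0 := fun r hr h => by
    have := hA1 r hr; rw [h, abs_zero] at this; linarith
  have hA2 : ∀ r ∈ A, |r| ≤ T ^ 2 := fun r hr =>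
    le_trans hr.2 (by
      rw [← Real.rpow_natCast T 2]
      exact Real.rpow_le_rpow_of_exponent_le hT (by push_cast; linarith))
  have hcr : ∀ r ∈ A, ‖cr r‖ ≤ 1 := fun r hr => by
    have h := hc.2 r (hA0 r hr)
    have h' : ‖cr r‖ ^ 2 ≤ 1 := by
      rw [h, div_le_one (by have := hA1 r hr; linarith)]
      have := hA1 r hr; linarith
    nlinarith [norm_nonneg (cr r)]
  -- the phase
  set ph : ℝ → ℝ → ℂ := fun r z => ee ((t + z) ^ 2 / (4 * r)) with hph
  have hphm : Measurable (fun q : ℝ × ℝ => ph q.1 q.2) := by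
    refine measurable_ee.comp ?_
    fun_prop
  have hphn : ∀ r z, ‖ph r z‖ = 1 := fun r z => norm_ee _
  have hphz : ∀ r, Measurable (ph r) := fun r => by
    refine measurable_ee.comp ?_
    fun_prop
  have hGz : ∀ r, Integrable (fun z => G z * ph r z) := fun r => by
    refine hGi.norm.mono (hGc.measurable.mul (hphz r)).aestronglyMeasurable
      (Eventually.of_forall fun z => ?_)
    rw [norm_mul, hphn, mul_one, norm_norm]
  set Zt : ℝ → ℂ := fun r => ∫ z in Bᶜ, G z * ph r z with hZt
  set Zb : ℝ → ℂ := fun r => ∫ z in B, G z * ph r z with hZb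
  have hZtm : Measurable Zt := by
    have : StronglyMeasurable (Function.uncurry fun r z => G z * ph r z) := by
      refine Measurable.stronglyMeasurable ?_
      exact (hGc.measurable.comp measurable_snd).mul hphm
    exact this.integral_prod_right.measurable
  -- tail
  have hGt : ∫ z in Bᶜ, ‖G z‖ ≤ C7 * 4 ^ (N + 4) * T ^ (-(N + 4 : ℝ)) * Real.pi := by
    set K : ℝ := C7 * 4 ^ (N + 4) * T ^ (-(N + 4 : ℝ)) with hK
    have hK0 : 0 ≤ K := by positivity
    rw [← (int_inv K).2]
    calc ∫ z in Bᶜ, ‖G z‖ ≤ ∫ z in Bᶜ, K * (1 + z ^ 2)⁻¹ := by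
          refine setIntegral_mono_on hGi.norm.integrableOn (int_inv K).1.integrableOn hBm.compl
            fun z hz => ?_
          have hz' : T / 4 < |z| := by
            by_contra hcon
            rw [not_lt] at hcon
            exact hz (abs_le.mp hcon)
          have hp : 0 < 1 + |z| := by positivity
          have e1 : (1 + |z|) ^ (-((N + 4 + 2 : ℕ) : ℝ)) =
              ((1 + |z|) ^ (N + 4))⁻¹ * ((1 + |z|) ^ 2)⁻¹ := by
            rw [Real.rpow_neg hp.le, Real.rpow_natCast, pow_add, mul_inv]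
          have e2 : ((1 + |z|) ^ (N + 4))⁻¹ ≤ 4 ^ (N + 4) * T ^ (-(N + 4 : ℝ)) := by
            have : T ^ (-(N + 4 : ℝ)) = (T ^ (N + 4))⁻¹ := by
              rw [Real.rpow_neg hT0.le]; norm_cast
            rw [this, ← div_eq_mul_inv, ← div_pow, ← inv_pow]
            refine pow_le_pow_left₀ (by positivity) ?_ _
            rw [inv_le_comm₀ hp (by positivity), inv_div]
            linarith
          have e3 : ((1 + |z|) ^ 2)⁻¹ ≤ (1 + z ^ 2)⁻¹ := by
            refine inv_anti₀ (by positivity) ?_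
            nlinarith [abs_nonneg z, sq_abs z]
          calc ‖G z‖ ≤ C7 * (1 + |z|) ^ (-((N + 4 + 2 : ℕ) : ℝ)) := hd7 z
            _ = C7 * (((1 + |z|) ^ (N + 4))⁻¹ * ((1 + |z|) ^ 2)⁻¹) := by rw [e1]
            _ ≤ C7 * ((4 ^ (N + 4) * T ^ (-(N + 4 : ℝ))) * (1 + z ^ 2)⁻¹) := by gcongr
            _ = K * (1 + z ^ 2)⁻¹ := by rw [hK]; ring
      _ ≤ ∫ z, K * (1 + z ^ 2)⁻¹ :=
          setIntegral_le_integral (int_inv K).1
            (Eventually.of_forall fun z => by positivity)
  have hZtb : ∀ r, ‖Zt r‖ ≤ C7 * 4 ^ (N + 4) * T ^ (-(N + 4 : ℝ)) * Real.pi := fun r => by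
    refine le_trans (norm_integral_le_integral_norm _) (le_trans (le_of_eq ?_) hGt)
    refine integral_congr_ae (Eventually.of_forall fun z => ?_)
    simp only [norm_mul, hphn, mul_one]
  -- the error function
  classical
  set F : ℝ → ℂ := fun r => if r ∈ A then cr r * Zt r else kap η t r with hF
  have hFm : Measurable F := Measurable.ite hAm (hc.1.mul hZtm) hkc.measurable
  have hFb : ∀ r, ‖F r‖ ≤ ((K1 + K2) * T ^ (-(N : ℝ))) * (1 + r ^ 2)⁻¹ := by
    intro r
    have hr2 : 0 < 1 + r ^ 2 := by positivity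
    have hTN : 0 ≤ T ^ (-(N : ℝ)) := by positivity
    by_cases hr : r ∈ A
    · simp only [hF, if_pos hr, norm_mul]
      have b1 : ‖cr r‖ * ‖Zt r‖ ≤ C7 * 4 ^ (N + 4) * T ^ (-(N + 4 : ℝ)) * Real.pi := by
        calc ‖cr r‖ * ‖Zt r‖ ≤ 1 * ‖Zt r‖ := by gcongr; exact hcr r hr
          _ ≤ _ := by rw [one_mul]; exact hZtb r
      have b2 : 1 ≤ 2 * T ^ 4 * (1 + r ^ 2)⁻¹ := by
        rw [← div_eq_mul_inv, one_le_div hr2]
        have h1' := hA2 r hr
        have h2' : r ^ 2 ≤ (T ^ 2) ^ 2 := by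
          rw [← sq_abs]; exact pow_le_pow_left₀ (abs_nonneg r) h1' 2
        have h3' : 1 ≤ T ^ 4 := one_le_pow₀ hT
        nlinarith
      have b3 : T ^ (-(N + 4 : ℝ)) * T ^ 4 = T ^ (-(N : ℝ)) := by
        rw [← Real.rpow_natCast T 4, ← Real.rpow_add hT0]; congr 1; push_cast; ring
      calc ‖cr r‖ * ‖Zt r‖ ≤ C7 * 4 ^ (N + 4) * T ^ (-(N + 4 : ℝ)) * Real.pi := b1
        _ ≤ C7 * 4 ^ (N + 4) * T ^ (-(N + 4 : ℝ)) * Real.pi * (2 * T ^ 4 * (1 + r ^ 2)⁻¹) :=
            le_mul_of_one_le_right (by positivity) b2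
        _ = K2 * (T ^ (-(N + 4 : ℝ)) * T ^ 4) * (1 + r ^ 2)⁻¹ := by rw [hK2]; ring
        _ = (K2 * T ^ (-(N : ℝ))) * (1 + r ^ 2)⁻¹ := by rw [b3]
        _ ≤ _ := by gcongr; linarith
    · simp only [hF, if_neg hr]
      have hpb := pow_bd T e N n hT hn'
      by_cases hr1 : |r| < T ^ (1 - e)
      · have q1 : (1 + |r|) / |t| ≤ 4 * T ^ (-e) := by
          rw [abs_of_pos ht0, div_le_iff₀ ht0]
          have : 1 ≤ T ^ (1 - e) := Real.one_le_rpow hT (by linarith)
          have e1 : T ^ (1 - e) = T ^ (-e) * T := by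
            rw [show (1 - e : ℝ) = -e + 1 by ring, Real.rpow_add hT0, Real.rpow_one]
          have e2 : 0 < T ^ (-e) := by positivity
          nlinarith
        have q2 : 1 ≤ 2 * T ^ 2 * (1 + r ^ 2)⁻¹ := by
          rw [← div_eq_mul_inv, one_le_div hr2]
          have h1' : |r| ≤ T := le_trans hr1.le (by
            calc T ^ (1 - e) ≤ T ^ (1 : ℝ) :=
                  Real.rpow_le_rpow_of_exponent_le hT (by linarith)
              _ = T := Real.rpow_one T)
          have h2' : r ^ 2 ≤ T ^ 2 := by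
            rw [← sq_abs]; exact pow_le_pow_left₀ (abs_nonneg r) h1' 2
          have h3' : 1 ≤ T ^ 2 := one_le_pow₀ hT
          nlinarith
        calc ‖kap η t r‖ = ‖∫ q, gq η q * ee (t * q - r * q ^ 2)‖ := by rw [hkap]
          _ ≤ C3 * ((1 + |r|) / |t|) ^ n := hk3 t r ht0.ne'
          _ ≤ C3 * (4 * T ^ (-e)) ^ n := by gcongr
          _ ≤ C3 * (4 * T ^ (-e)) ^ n * (2 * T ^ 2 * (1 + r ^ 2)⁻¹) :=
              le_mul_of_one_le_right (by positivity) q2
          _ = C3 * 4 ^ n * 2 * ((T ^ (-e)) ^ n * T ^ 2) * (1 + r ^ 2)⁻¹ := by rw [mul_pow]; ring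
          _ ≤ C3 * 4 ^ n * 2 * T ^ (-(N : ℝ)) * (1 + r ^ 2)⁻¹ := by gcongr
          _ ≤ _ := by
              gcongr
              have : 0 ≤ C2 * 3 ^ n * 18 := by positivity
              rw [hK1]; linarith
      · have hr3 : T ^ (1 + e) < |r| := by
          by_contra hcon
          rw [not_lt] at hr1 hcon
          exact hr ⟨hr1, hcon⟩
        have hT1e : 1 ≤ T ^ (1 + e) := Real.one_le_rpow hT (by linarith)
        have hrp : 0 < |r| := by linarith
        have hr0 : r ≠ 0 := abs_pos.mp hrp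
        have q1 : (1 + |t|) / |r| ≤ 3 * T ^ (-e) := by
          rw [abs_of_pos ht0, div_le_iff₀ hrp]
          have e1 : T ^ (-e) * T ^ (1 + e) = T := by
            rw [← Real.rpow_add hT0]; simp
          have e2 : 0 < T ^ (-e) := by positivity
          nlinarith
        have q2 : ((1 + |t|) / |r|) ^ 2 ≤ 18 * T ^ 2 * (1 + r ^ 2)⁻¹ := by
          rw [div_pow, sq_abs, ← div_eq_mul_inv, div_le_div_iff₀ (by positivity) hr2,
            abs_of_pos ht0]
          have h1' : 1 ≤ r ^ 2 := by
            rw [← sq_abs]; exact one_le_pow₀ (by linarith)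
          have h2' : (1 + t) ^ 2 ≤ 9 * T ^ 2 := by nlinarith
          nlinarith [sq_nonneg (1 + t), sq_nonneg T]
        calc ‖kap η t r‖ ≤ C2 * ((1 + |t|) / |r|) ^ (n + 2) := hk2 t r hr0
          _ = C2 * (((1 + |t|) / |r|) ^ n * ((1 + |t|) / |r|) ^ 2) := by rw [pow_add]
          _ ≤ C2 * ((3 * T ^ (-e)) ^ n * (18 * T ^ 2 * (1 + r ^ 2)⁻¹)) := by gcongr
          _ = C2 * 3 ^ n * 18 * ((T ^ (-e)) ^ n * T ^ 2) * (1 + r ^ 2)⁻¹ := by
              rw [mul_pow]; ring
          _ ≤ C2 * 3 ^ n * 18 * T ^ (-(N : ℝ)) * (1 + r ^ 2)⁻¹ := by gcongr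
          _ ≤ _ := by
              gcongr
              have : 0 ≤ C3 * 4 ^ n * 2 := by positivity
              rw [hK1]; linarith
  have hFi : Integrable F := (int_inv _).1.mono' hFm.aestronglyMeasurable
    (Eventually.of_forall hFb)
  refine ⟨fun p => ∫ r, F r * ee (r * p), (cont_four F hFi).measurable, fun p => ?_, fun p => ?_⟩
  · refine le_trans (norm_four F _ (int_inv _).1 hFb p) (le_of_eq ?_)
    rw [(int_inv _).2]; ring
  · -- the identity
    have eem : ∀ f : ℝ → ℂ, Integrable f → Integrable (fun r => f r * ee (r * p)) := by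
      intro f hf
      refine hf.norm.mono (hf.aestronglyMeasurable.mul
        ((continuous_ee.comp (by fun_prop : Continuous fun r : ℝ => r * p)).aestronglyMeasurable))
        (Eventually.of_forall fun r => ?_)
      rw [norm_mul, norm_ee, mul_one, norm_norm]
    have hsplit : ∀ r, kap η t r * ee (r * p) =
        F r * ee (r * p) + A.indicator (fun r => cr r * Zb r * ee (r * p)) r := by
      intro r
      by_cases hr : r ∈ A
      · rw [indicator_of_mem hr]
        simp only [hF, if_pos hr]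
        rw [hkap, h6 (gq η) hg.continuous hgi hGi t r (hA0 r hr),
          ← integral_add_compl hBm (hGz r)]
        simp only [hZb, hZt]
        ring
      · rw [indicator_of_notMem hr, add_zero]
        simp only [hF, if_neg hr]
    have hind : Integrable (A.indicator (fun r => cr r * Zb r * ee (r * p))) := by
      have : A.indicator (fun r => cr r * Zb r * ee (r * p)) =
          fun r => kap η t r * ee (r * p) - F r * ee (r * p) := by
        funext r; rw [hsplit r]; ring
      rw [this]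
      exact (eem _ hki).sub (eem _ hFi)
    rw [← hkinv p, integral_congr_ae (Eventually.of_forall hsplit),
      integral_add (eem _ hFi) hind, integral_indicator hAm, add_comm]
    congr 1
    -- Fubini
    have e1 : ∀ r ∈ A, cr r * Zb r * ee (r * p) =
        ∫ z in B, G z * (cr r * ee ((t + z) ^ 2 / (4 * r) + r * p)) := by
      intro r _
      simp only [hZb]
      rw [mul_assoc, mul_comm (∫ z in B, G z * ph r z), ← mul_assoc, ← integral_const_mul]
      refine integral_congr_ae (Eventually.of_forall fun z => ?_)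
      simp only [hph]
      rw [ee_add]; ring
    rw [setIntegral_congr_fun hAm e1, integral_integral_swap]
    · refine integral_congr_ae (Eventually.of_forall fun z => ?_)
      simp only
      rw [integral_const_mul]
    · -- integrability on the product
      have hAf : volume A ≠ ⊤ := by
        have : A ⊆ Icc (-(T ^ 2)) (T ^ 2) := fun r hr => abs_le.mp (hA2 r hr)
        exact ne_top_of_le_ne_top (by simp) (measure_mono this)
      have i1 : Integrable (fun _ : ℝ => (1 : ℝ)) (volume.restrict A) := by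
        rw [integrable_const_iff]
        right
        exact ⟨by rw [Measure.restrict_apply_univ]; exact lt_top_iff_ne_top.mpr hAf⟩
      have i2 : Integrable (fun z => ‖G z‖) (volume.restrict B) := hGi.norm.integrableOn
      have i3 := i1.mul_prod i2
      refine i3.mono ?_ ?_
      · refine Measurable.aestronglyMeasurable ?_
        refine (hGc.measurable.comp measurable_snd).mul
          ((hc.1.comp measurable_fst).mul (measurable_ee.comp ?_))
        fun_prop
      · have hmem : ∀ᵐ q : ℝ × ℝ ∂((volume.restrict A).prod (volume.restrict B)), q.1 ∈ A := by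
          have : ∀ᵐ r ∂(volume.restrict A), r ∈ A := ae_restrict_mem hAm
          exact Measure.quasiMeasurePreserving_fst.ae this
        filter_upwards [hmem] with q hq
        simp only [Function.uncurry, norm_mul, norm_ee, mul_one, one_mul, norm_norm]
        calc ‖G q.2‖ * ‖cr q.1‖ ≤ ‖G q.2‖ * 1 := by gcongr; exact hcr _ hq
          _ = ‖G q.2‖ := mul_one _

end Pool.Agent.W148.SP
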